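import Pool.Agent.Lib.MP_b1a3a4_al.MVS.TH.Iface

set_option linter.all false

namespace Pool.Agent.Lib.MP_b1a3a4_al.MVS.TH.H64

/-- doubling the first half of the interval -/
noncomputable def lo (t : unitInterval) : unitInterval := Set.projIcc 0 1 zero_le_one (2 * (t : ℝ))

/-- doubling the second half of the interval -/
noncomputable def hi (t : unitInterval) : unitInterval :=
  Set.projIcc 0 1 zero_le_one (2 * (t : ℝ) - 1)

lemma continuous_lo : Continuous lo := by unfold lo; fun_prop
lemma continuous_hi : Continuous hi := by unfold hi; fun_prop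

lemma lo_zero : lo 0 = 0 := by
  apply Subtype.ext; simp [lo, Set.coe_projIcc]

lemma hi_one : hi 1 = 1 := by
  apply Subtype.ext; simp [hi, Set.coe_projIcc]; norm_num

lemma lo_half {t : unitInterval} (h : (t : ℝ) = 1 / 2) : lo t = 1 := by
  apply Subtype.ext; simp [lo, Set.coe_projIcc, h]

lemma hi_half {t : unitInterval} (h : (t : ℝ) = 1 / 2) : hi t = 0 := by
  apply Subtype.ext; simp [hi, Set.coe_projIcc, h]

/-- gluing in the direction `j` -/
noncomputable def gl {W : Type} {q : ℕ} (j : Fin q) (F G : Cu q → W) (x : Cu q) : W :=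
  if (x j : ℝ) ≤ 1 / 2 then F (Function.update x j (lo (x j)))
  else G (Function.update x j (hi (x j)))

lemma gl_zero {W : Type} {q : ℕ} (j : Fin q) (F G : Cu q → W) (x : Cu q) (h : x j = 0) :
    gl j F G x = F x := by
  have h1 : (x j : ℝ) ≤ 1 / 2 := by rw [h]; norm_num
  rw [gl, if_pos h1]
  congr 1
  rw [h, lo_zero, ← h, Function.update_eq_self]

lemma gl_one {W : Type} {q : ℕ} (j : Fin q) (F G : Cu q → W) (x : Cu q) (h : x j = 1) :
    gl j F G x = G x := by
  have h1 : ¬ (x j : ℝ) ≤ 1 / 2 := by rw [h]; norm_num
  rw [gl, if_neg h1]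
  congr 1
  rw [h, hi_one, ← h, Function.update_eq_self]

lemma gl_half {W : Type} {q : ℕ} (j : Fin q) (F G : Cu q → W) (x : Cu q)
    (h : (x j : ℝ) = 1 / 2) : gl j F G x = F (Function.update x j 1) := by
  rw [gl, if_pos h.le, lo_half h]

lemma continuous_gl {W : Type} [TopologicalSpace W] {q : ℕ} (j : Fin q) (F G : Cu q → W)
    (hF : Continuous F) (hG : Continuous G)
    (h : ∀ x, F (Function.update x j 1) = G (Function.update x j 0)) :
    Continuous (gl j F G) := by
  unfold gl
  refine Continuous.if_le ?_ ?_ ?_ ?_ ?_
  · exact hF.comp (continuous_id.update j (continuous_lo.comp (continuous_apply j)))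
  · exact hG.comp (continuous_id.update j (continuous_hi.comp (continuous_apply j)))
  · exact continuous_subtype_val.comp (continuous_apply j)
  · exact continuous_const
  · intro x hx
    show F (Function.update x j (lo (x j))) = G (Function.update x j (hi (x j)))
    rw [lo_half hx, hi_half hx]
    exact h x

lemma halfL_apply {q : ℕ} (j : Fin q) (x : Cu q) : ((halfL j x) j : ℝ) = (x j : ℝ) / 2 := by
  have h0 := (x j).2.1
  have h1 := (x j).2.2
  simp only [halfL, Function.update_self]
  rw [Set.projIcc_of_mem zero_le_one ⟨by linarith, by linarith⟩]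

lemma halfR_apply {q : ℕ} (j : Fin q) (x : Cu q) :
    ((halfR j x) j : ℝ) = (1 + (x j : ℝ)) / 2 := by
  have h0 := (x j).2.1
  have h1 := (x j).2.2
  simp only [halfR, Function.update_self]
  rw [Set.projIcc_of_mem zero_le_one ⟨by linarith, by linarith⟩]

lemma gl_halfL {W : Type} {q : ℕ} (j : Fin q) (F G : Cu q → W) (x : Cu q) :
    gl j F G (halfL j x) = F x := by
  have h0 := (x j).2.1
  have h1 := (x j).2.2
  have h2 := halfL_apply j x
  rw [gl, if_pos (by rw [h2]; linarith)]
  congr 1
  have h3 : lo ((halfL j x) j) = x j := by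
    apply Subtype.ext
    rw [lo, h2, Set.projIcc_of_mem zero_le_one ⟨by linarith, by linarith⟩]
    show 2 * ((x j : ℝ) / 2) = x j
    ring
  rw [h3, halfL, Function.update_idem, Function.update_eq_self]

lemma gl_halfR {W : Type} {q : ℕ} (j : Fin q) (F G : Cu q → W)
    (h : ∀ x, F (Function.update x j 1) = G (Function.update x j 0)) (x : Cu q) :
    gl j F G (halfR j x) = G x := by
  have h0 := (x j).2.1
  have h1 := (x j).2.2
  have h2 := halfR_apply j x
  by_cases hx : (x j : ℝ) = 0
  · have h4 : ((halfR j x) j : ℝ) = 1 / 2 := by rw [h2, hx]; norm_num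
    rw [gl_half _ _ _ _ h4, h]
    congr 1
    have h5 : x j = 0 := Subtype.ext hx
    rw [halfR, Function.update_idem, ← h5, Function.update_eq_self]
  · have hx' : 0 < (x j : ℝ) := lt_of_le_of_ne h0 (Ne.symm hx)
    rw [gl, if_neg (by rw [h2]; linarith)]
    congr 1
    have h3 : hi ((halfR j x) j) = x j := by
      apply Subtype.ext
      rw [hi, h2, Set.projIcc_of_mem zero_le_one ⟨by linarith, by linarith⟩]
      show 2 * ((1 + (x j : ℝ)) / 2) - 1 = x j
      ring
    rw [h3, halfR, Function.update_idem, Function.update_eq_self]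

lemma update_eq_fi {q : ℕ} (j : Fin (q + 1)) (ε : Bool) (x : Cu (q + 1)) :
    Function.update x j (ev ε) = fi j ε (rem j x) := by
  conv_lhs => rw [← ins_rem j x]
  exact ins_update j _ _ _

/-- the restriction of a glued map to another face is glued -/
lemma gl_face {W : Type} {q : ℕ} (j : Fin (q + 2)) (l : Fin (q + 1)) (F G : Cu (q + 2) → W)
    (ε : Bool) (x : Cu (q + 1)) :
    gl j F G (fi (j.succAbove l) ε x) =
      gl (l.predAbove j) (fun z => F (fi (j.succAbove l) ε z))
        (fun z => G (fi (j.succAbove l) ε z)) x := by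
  have hj : (j.succAbove l).succAbove (l.predAbove j) = j := by
    exact Fin.succAbove_succAbove_predAbove j l
  have h1 : fi (j.succAbove l) ε x j = x (l.predAbove j) := by
    have := ins_succAbove (j.succAbove l) (ev ε) x (l.predAbove j)
    rw [hj] at this
    exact this
  have h2 : ∀ a, Function.update (fi (j.succAbove l) ε x) j a =
      fi (j.succAbove l) ε (Function.update x (l.predAbove j) a) := by
    intro a
    have := ins_update_ne (j.succAbove l) (l.predAbove j) (ev ε) a x
    rw [hj] at this
    exact this
  unfold gl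
  rw [h1, h2, h2]

lemma fi_gd2 {Z : Type} [TopologicalSpace Z] {B : Set Z} {y : Z} {q : ℕ} {F : Cu (q + 1) → Z}
    (hF : Gd2 B y F) (l : Fin (q + 1)) (ε : Bool) : Good B y (fun x => F (fi l ε x)) := by
  refine ⟨hF.1.comp (continuous_fi l ε), fun x => hF.2.1 _, ?_⟩
  rintro x ⟨i, hi⟩
  refine hF.2.2 _ ⟨l, l.succAbove i, (Fin.succAbove_ne l i).symm, ?_, ?_⟩
  · cases ε <;> simp [fi]
  · simpa [fi] using hi

theorem hatglue : HatglueStatement := by
  intro Z _ B y r P _ cl hcl F G hF hG j hFG
  have hFG' : ∀ x, F (Function.update x j 1) = G (Function.update x j 0) := by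
    intro x
    have e1 := update_eq_fi j true x
    have e2 := update_eq_fi j false x
    rw [ev_true] at e1
    rw [ev_false] at e2
    rw [e1, e2]
    exact hFG _
  have hH : Gd2 B y (gl j F G) := by
    refine ⟨continuous_gl j F G hF.1 hG.1 hFG', ?_, ?_⟩
    · intro x
      unfold gl
      split_ifs
      · exact hF.2.1 _
      · exact hG.2.1 _
    · rintro x ⟨i, k, hik, hi, hk⟩
      have key : ∀ (i k : Fin (r + 3)), i ≠ k → k ≠ j → (x i = 0 ∨ x i = 1) →
          (x k = 0 ∨ x k = 1) → gl j F G x = y := by
        intro i k hik hkj hi hk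
        by_cases hij : i = j
        · subst hij
          rcases hi with hi | hi
          · rw [gl_zero _ _ _ _ hi]
            exact hF.2.2 x ⟨i, k, hik, Or.inl hi, hk⟩
          · rw [gl_one _ _ _ _ hi]
            exact hG.2.2 x ⟨i, k, hik, Or.inr hi, hk⟩
        · unfold gl
          split_ifs
          · refine hF.2.2 _ ⟨i, k, hik, ?_, ?_⟩
            · rwa [Function.update_of_ne hij]
            · rwa [Function.update_of_ne hkj]
          · refine hG.2.2 _ ⟨i, k, hik, ?_, ?_⟩
            · rwa [Function.update_of_ne hij]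
            · rwa [Function.update_of_ne hkj]
      by_cases hkj : k = j
      · exact key k i hik.symm (fun h => hik (h.trans hkj.symm)) hk hi
      · exact key i k hik hkj hi hk
  have hf0 : ∀ x, gl j F G (fi j false x) = F (fi j false x) := by
    intro x
    exact gl_zero _ _ _ _ (by simp [fi])
  have hf1 : ∀ x, gl j F G (fi j true x) = G (fi j true x) := by
    intro x
    exact gl_one _ _ _ _ (by simp [fi])
  refine ⟨gl j F G, hH, ?_, hf0, hf1, ?_⟩
  · have hcls : ∀ l, l ≠ j → ∀ ε, cl (fun x => gl j F G (fi l ε x)) =
        cl (fun x => F (fi l ε x)) + cl (fun x => G (fi l ε x)) := by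
      intro l hl ε
      obtain ⟨l', rfl⟩ : ∃ l', j.succAbove l' = l := Fin.exists_succAbove_eq hl
      have hgood := fi_gd2 hH (j.succAbove l') ε
      have hj : (j.succAbove l').succAbove (l'.predAbove j) = j :=
        Fin.succAbove_succAbove_predAbove j l'
      have hup : ∀ (a : unitInterval) (x : Cu (r + 2)),
          fi (j.succAbove l') ε (Function.update x (l'.predAbove j) a) =
            Function.update (fi (j.succAbove l') ε x) j a := by
        intro a x
        have := ins_update_ne (j.succAbove l') (l'.predAbove j) (ev ε) a x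
        rw [hj] at this
        exact this.symm
      have hmid : ∀ x : Cu (r + 2), (x (l'.predAbove j) : ℝ) = 1 / 2 →
          gl j F G (fi (j.succAbove l') ε x) = y := by
        intro x hx
        rw [gl_face, gl_half _ _ _ _ hx, hup]
        refine hF.2.2 _ ⟨j, j.succAbove l', (Fin.succAbove_ne j l').symm, ?_, ?_⟩
        · rw [Function.update_self]; exact Or.inr rfl
        · rw [Function.update_of_ne (Fin.succAbove_ne j l')]
          cases ε <;> simp [fi]
      rw [hcl.add _ hgood (l'.predAbove j) hmid]
      congr 1
      · congr 1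
        funext x
        rw [gl_face, gl_halfL]
      · congr 1
        funext x
        rw [gl_face, gl_halfR]
        intro z
        show F (fi (j.succAbove l') ε (Function.update z (l'.predAbove j) 1)) =
          G (fi (j.succAbove l') ε (Function.update z (l'.predAbove j) 0))
        rw [hup, hup]
        exact hFG' _
    have hclj : cl (fun x => F (fi j true x)) = cl (fun x => G (fi j false x)) := by
      congr 1
      funext x
      exact hFG x
    unfold Sg
    rw [← Finset.sum_add_distrib]
    refine Finset.sum_congr rfl (fun i _ => ?_)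
    rw [← smul_add]
    congr 1
    by_cases hij : i = j
    · subst hij
      have e0 : cl (fun x => gl i F G (fi i false x)) = cl (fun x => F (fi i false x)) := by
        congr 1; funext x; exact hf0 x
      have e1 : cl (fun x => gl i F G (fi i true x)) = cl (fun x => G (fi i true x)) := by
        congr 1; funext x; exact hf1 x
      rw [e0, e1, hclj]
      abel
    · rw [hcls i hij, hcls i hij]
      abel
  · intro l hl ε h1 h2 x
    obtain ⟨l', rfl⟩ : ∃ l', j.succAbove l' = l := Fin.exists_succAbove_eq hl
    rw [gl_face]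
    unfold gl
    split_ifs
    · exact h1 _
    · exact h2 _

end Pool.Agent.Lib.MP_b1a3a4_al.MVS.TH.H64
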