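import Pool.Agent.Lib.MP_b1a3a4_al.MVS.TH.Iface
import Pool.Agent.Lib.MP_b1a3a4_al.MVS.TH.H64.Hatglue

set_option linter.all false

namespace Pool.Agent.Lib.MP_b1a3a4_al.MVS.TH.H64

section

variable {Z : Type} [TopologicalSpace Z] {B : Set Z} {y : Z} (hy : y ∈ B) {q : ℕ}

/-- the generalized loop of a good map -/
def toG (a : Cu q → Z) (h : Good B y a) : GenLoop (Fin q) B (⟨y, hy⟩ : B) :=
  ⟨⟨fun x => ⟨a x, h.2.1 x⟩, h.1.subtype_mk _⟩, fun x hx => Subtype.ext (h.2.2 x hx)⟩

@[simp] lemma toG_apply (a : Cu q → Z) (h : Good B y a) (x : Cu q) :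
    ((toG hy a h x : B) : Z) = a x := rfl

lemma homotopic_iff (a b : Cu q → Z) (ha : Good B y a) (hb : Good B y b) :
    GenLoop.Homotopic (toG hy a ha) (toG hy b hb) ↔ Hq B y a b := by
  constructor
  · rintro ⟨H⟩
    have hc : Continuous (fun p : Cu q × unitInterval => ((H (p.2, p.1) : B) : Z)) :=
      continuous_subtype_val.comp (H.continuous.comp (continuous_snd.prodMk continuous_fst))
    refine ⟨fun x => (ContinuousMap.curry ⟨_, hc⟩) x, (ContinuousMap.curry ⟨_, hc⟩).continuous,
      ?_, ?_, ?_, ?_⟩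
    · intro x s
      exact (H (s, x)).2
    · intro x
      have := H.apply_zero x
      exact congrArg Subtype.val this
    · intro x
      have := H.apply_one x
      exact congrArg Subtype.val this
    · intro x hx s
      have := H.eq_fst s hx
      exact (congrArg Subtype.val this).trans (ha.2.2 x hx)
  · rintro ⟨H, h1, h2, h3, h4, h5⟩
    have hc : Continuous (fun p : unitInterval × Cu q => H p.2 p.1) :=
      continuous_eval.comp ((h1.comp continuous_snd).prodMk continuous_fst)
    refine ⟨⟨⟨⟨fun p => (⟨H p.2 p.1, h2 p.2 p.1⟩ : B), hc.subtype_mk _⟩, ?_, ?_⟩, ?_⟩⟩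
    · intro x
      exact Subtype.ext (h3 x)
    · intro x
      exact Subtype.ext (h4 x)
    · intro s x hx
      exact Subtype.ext ((h5 x hx s).trans (ha.2.2 x hx).symm)

lemma good_const (hy : y ∈ B) : Good B y (fun _ : Cu q => y) :=
  ⟨continuous_const, fun _ => hy, fun _ _ => rfl⟩

lemma halfL_mem {i : Fin q} {a : Cu q → Z} (ha : Good B y a)
    (hm : ∀ x : Cu q, (x i : ℝ) = 1 / 2 → a x = y) : Good B y (fun x => a (halfL i x)) := by
  refine ⟨ha.1.comp ?_, fun x => ha.2.1 _, ?_⟩
  · unfold halfL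
    exact continuous_id.update i (by fun_prop)
  · rintro x ⟨k, hk⟩
    by_cases hki : k = i
    · subst hki
      rcases hk with hk | hk
      · refine ha.2.2 _ ⟨k, Or.inl ?_⟩
        apply Subtype.ext
        rw [halfL_apply, hk]
        simp
      · refine hm _ ?_
        rw [halfL_apply, hk]
        simp
    · refine ha.2.2 _ ⟨k, ?_⟩
      rw [halfL, Function.update_of_ne hki]
      exact hk

lemma halfR_mem {i : Fin q} {a : Cu q → Z} (ha : Good B y a)
    (hm : ∀ x : Cu q, (x i : ℝ) = 1 / 2 → a x = y) : Good B y (fun x => a (halfR i x)) := by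
  refine ⟨ha.1.comp ?_, fun x => ha.2.1 _, ?_⟩
  · unfold halfR
    exact continuous_id.update i (by fun_prop)
  · rintro x ⟨k, hk⟩
    by_cases hki : k = i
    · subst hki
      rcases hk with hk | hk
      · refine hm _ ?_
        rw [halfR_apply, hk]
        simp
      · refine ha.2.2 _ ⟨k, Or.inr ?_⟩
        apply Subtype.ext
        rw [halfR_apply, hk]
        norm_num
    · refine ha.2.2 _ ⟨k, ?_⟩
      rw [halfR, Function.update_of_ne hki]
      exact hk

lemma halfL_lo (i : Fin q) (x : Cu q) (hx : (x i : ℝ) ≤ 1 / 2) :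
    halfL i (Function.update x i (Set.projIcc 0 1 zero_le_one (2 * (x i : ℝ)))) = x := by
  have h0 := (x i).2.1
  have e1 := Set.projIcc_of_mem (zero_le_one : (0 : ℝ) ≤ 1)
    (⟨by linarith, by linarith⟩ : 2 * (x i : ℝ) ∈ Set.Icc (0 : ℝ) 1)
  rw [e1, halfL, Function.update_idem, Function.update_self]
  show Function.update x i (Set.projIcc (0 : ℝ) 1 zero_le_one (2 * (x i : ℝ) / 2)) = x
  have e2 : 2 * (x i : ℝ) / 2 = x i := by ring
  rw [e2, Set.projIcc_of_mem zero_le_one (x i).2]
  exact Function.update_eq_self i x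

lemma halfR_hi (i : Fin q) (x : Cu q) (hx : 1 / 2 ≤ (x i : ℝ)) :
    halfR i (Function.update x i (Set.projIcc 0 1 zero_le_one (2 * (x i : ℝ) - 1))) = x := by
  have h1 := (x i).2.2
  have e1 := Set.projIcc_of_mem (zero_le_one : (0 : ℝ) ≤ 1)
    (⟨by linarith, by linarith⟩ : 2 * (x i : ℝ) - 1 ∈ Set.Icc (0 : ℝ) 1)
  rw [e1, halfR, Function.update_idem, Function.update_self]
  show Function.update x i (Set.projIcc (0 : ℝ) 1 zero_le_one ((1 + (2 * (x i : ℝ) - 1)) / 2)) = x
  have e2 : (1 + (2 * (x i : ℝ) - 1)) / 2 = x i := by ring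
  rw [e2, Set.projIcc_of_mem zero_le_one (x i).2]
  exact Function.update_eq_self i x

/-- the class of the loop of a good map in the homotopy group of Mathlib -/
def mkG (a : Cu q → Z) (h : Good B y a) : HomotopyGroup (Fin q) B (⟨y, hy⟩ : B) :=
  Quotient.mk (GenLoop.Homotopic.setoid (Fin q) (⟨y, hy⟩ : B)) (toG hy a h)

lemma mkG_eq (a b : Cu q → Z) (ha : Good B y a) (hb : Good B y b) :
    mkG hy a ha = mkG hy b hb ↔ Hq B y a b := by
  rw [← homotopic_iff hy a b ha hb]
  exact Quotient.eq (r := GenLoop.Homotopic.setoid (Fin q) (⟨y, hy⟩ : B))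

lemma toG_trans (i : Fin q) (a : Cu q → Z) (ha : Good B y a)
    (hm : ∀ x : Cu q, (x i : ℝ) = 1 / 2 → a x = y) :
    toG hy a ha = GenLoop.transAt i (toG hy _ (halfL_mem ha hm)) (toG hy _ (halfR_mem ha hm)) := by
  apply GenLoop.ext
  intro x
  show toG hy a ha x = if (x i : ℝ) ≤ 1 / 2
      then toG hy _ (halfL_mem ha hm)
        (Function.update x i <| Set.projIcc 0 1 zero_le_one (2 * x i))
      else toG hy _ (halfR_mem ha hm)
        (Function.update x i <| Set.projIcc 0 1 zero_le_one (2 * x i - 1))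
  split_ifs with h
  · apply Subtype.ext
    show a x = a (halfL i _)
    rw [halfL_lo i x h]
  · apply Subtype.ext
    show a x = a (halfR i _)
    rw [halfR_hi i x (not_le.1 h).le]

lemma mkG_mul [Nonempty (Fin q)] (i : Fin q) (a : Cu q → Z) (ha : Good B y a)
    (hm : ∀ x : Cu q, (x i : ℝ) = 1 / 2 → a x = y) :
    mkG hy a ha = mkG hy _ (halfR_mem ha hm) * mkG hy _ (halfL_mem ha hm) := by
  have h := HomotopyGroup.mul_spec (i := i) (p := toG hy _ (halfR_mem ha hm))
    (q := toG hy _ (halfL_mem ha hm))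
  rw [← toG_trans hy i a ha hm] at h
  exact h.symm

lemma mkG_const [Nonempty (Fin q)] : mkG hy (fun _ : Cu q => y) (good_const hy) = 1 := rfl

/-- the class of a map -/
noncomputable def clG [Nonempty (Fin q)] (a : Cu q → Z) :
    HomotopyGroup (Fin q) B (⟨y, hy⟩ : B) := by
  classical
  exact if h : Good B y a then (mkG hy a h)⁻¹ else 1

lemma clG_good [Nonempty (Fin q)] (a : Cu q → Z) (h : Good B y a) :
    clG hy a = (mkG hy a h)⁻¹ := by
  rw [clG, dif_pos h]

theorem isCl_clG [Nonempty (Fin q)] : IsCl q B y (clG (q := q) hy) := by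
  refine ⟨?_, ?_, ?_⟩
  · intro a b ha hb
    rw [clG_good hy a ha, clG_good hy b hb, inv_inj, mkG_eq]
  · rw [clG_good hy _ (good_const hy), inv_eq_one, mkG_const]
  · intro a ha i hm
    rw [clG_good hy a ha, clG_good hy _ (halfL_mem ha hm), clG_good hy _ (halfR_mem ha hm),
      ← mul_inv_rev, mkG_mul hy i a ha hm]

theorem pi_comm (hq : Nontrivial (Fin q)) [Nonempty (Fin q)]
    (a b : HomotopyGroup (Fin q) B (⟨y, hy⟩ : B)) : a * b = b * a := by
  have h := (HomotopyGroup.commGroup (N := Fin q) (X := B) (x := (⟨y, hy⟩ : B))).mul_comm a b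
  exact h

end

theorem cl : ClStatement := by
  intro Z _ B y hy q
  constructor
  · exact ⟨HomotopyGroup (Fin (q + 1)) B (⟨y, hy⟩ : B), inferInstance, clG hy, isCl_clG hy⟩
  · letI G : CommGroup (HomotopyGroup (Fin (q + 2)) B (⟨y, hy⟩ : B)) :=
      { (inferInstance : Group (HomotopyGroup (Fin (q + 2)) B (⟨y, hy⟩ : B))) with
        mul_comm := pi_comm hy inferInstance }
    have h := isCl_clG (q := q + 2) hy
    refine ⟨Additive (HomotopyGroup (Fin (q + 2)) B (⟨y, hy⟩ : B)), inferInstance,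
      fun a => Additive.ofMul (clG hy a), ?_, ?_, ?_⟩
    · intro a b ha hb
      rw [← h.htpy a b ha hb]
      exact Additive.ofMul.injective.eq_iff
    · exact congrArg Additive.ofMul h.const
    · intro a ha i hm
      exact congrArg Additive.ofMul (h.mul a ha i hm)

end Pool.Agent.Lib.MP_b1a3a4_al.MVS.TH.H64
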